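import Mathlib
import Pool.Agent.V11167.SqDefs
import Pool.Agent.V11167.SqE

/-!
# Halving three planar measures by a square

(A) Three finite absolutely continuous measures on the plane are always halved simultaneously by a
square or by a half-plane (a degenerate square).
(B) If the measures have bounded supports, some genuine square contains exactly half of each.
(C) Without the boundedness assumption a genuine square need not exist.
-/

namespace Pool.Agent.Results.MP_3da004_co.SquareHalving

open MeasureTheory Pool.Agent.V11167.SqDefs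

theorem result :
    (∀ μ : Fin 3 → Measure (ℝ × ℝ), FiniteAC μ →
      (∃ (p : ℝ × ℝ) (θ s : ℝ), 0 < s ∧ Halves (square p θ s) μ) ∨
        ∃ θ c : ℝ, Halves (halfPlane θ c) μ) ∧
    (∀ μ : Fin 3 → Measure (ℝ × ℝ), FiniteAC μ →
      (∀ i, ∃ B : Set (ℝ × ℝ), Bornology.IsBounded B ∧ μ i Bᶜ = 0) →
      ∃ (p : ℝ × ℝ) (θ s : ℝ), 0 < s ∧ Halves (square p θ s) μ) ∧
    (∃ μ : Fin 3 → Measure (ℝ × ℝ), FiniteAC μ ∧
      ∀ (p : ℝ × ℝ) (θ s : ℝ), 0 < s → ¬ Halves (square p θ s) μ) :=
  ⟨fun μ hμ => Pool.Agent.V11167.Sq3.partA μ hμ,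
    fun μ hμ h => Pool.Agent.V11167.Sq3.partB μ hμ h, Pool.Agent.V11167.Sq3.partC⟩

end Pool.Agent.Results.MP_3da004_co.SquareHalving
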